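import Mathlib

/-!
Project GQ (helper162), part WDG (helper249): the Laplace expansion for two blocks of columns, as a
sum over all permutations of the rows.
-/

set_option autoImplicit false

namespace Pool.Agent.N249.GQ

open Matrix Equiv

/-- the Laplace expansion for two blocks of columns, as a sum over all permutations -/
theorem laplace {K : Type} [Field K] {n₁ n₂ : ℕ}
    (M : Matrix (Fin n₁ ⊕ Fin n₂) (Fin n₁ ⊕ Fin n₂) K) :
    ((n₁.factorial * n₂.factorial : ℕ) : K) * M.det =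
      ∑ s : Perm (Fin n₁ ⊕ Fin n₂), ((Perm.sign s : ℤ) : K) *
        ((Matrix.of fun i j => M (s (Sum.inl i)) (Sum.inl j) : Matrix (Fin n₁) (Fin n₁) K).det *
        (Matrix.of fun i j => M (s (Sum.inr i)) (Sum.inr j) : Matrix (Fin n₂) (Fin n₂) K).det) := by
  have key : ∀ (a : Perm (Fin n₁)) (b : Perm (Fin n₂)), M.det =
      ∑ s : Perm (Fin n₁ ⊕ Fin n₂), ((Perm.sign s : ℤ) : K) *
        ((((Perm.sign a : ℤ) : K) * ∏ i, M (s (Sum.inl (a i))) (Sum.inl i)) *
        (((Perm.sign b : ℤ) : K) * ∏ i, M (s (Sum.inr (b i))) (Sum.inr i))) := by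
    intro a b
    rw [Matrix.det_apply', ← Equiv.sum_comp (Equiv.mulRight (Perm.sumCongr a b))]
    refine Finset.sum_congr rfl fun s _ => ?_
    rw [Equiv.coe_mulRight, Perm.sign_mul, Perm.sign_sumCongr, Fintype.prod_sum_type]
    simp only [Perm.mul_apply, Perm.sumCongr_apply, Sum.map_inl, Sum.map_inr, Units.val_mul,
      Int.cast_mul]
    ring
  have h1 : ∀ s : Perm (Fin n₁ ⊕ Fin n₂), ((Perm.sign s : ℤ) : K) *
        ((Matrix.of fun i j => M (s (Sum.inl i)) (Sum.inl j) : Matrix (Fin n₁) (Fin n₁) K).det *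
        (Matrix.of fun i j => M (s (Sum.inr i)) (Sum.inr j) : Matrix (Fin n₂) (Fin n₂) K).det) =
      ∑ a : Perm (Fin n₁), ∑ b : Perm (Fin n₂), ((Perm.sign s : ℤ) : K) *
        ((((Perm.sign a : ℤ) : K) * ∏ i, M (s (Sum.inl (a i))) (Sum.inl i)) *
        (((Perm.sign b : ℤ) : K) * ∏ i, M (s (Sum.inr (b i))) (Sum.inr i))) := by
    intro s
    rw [Matrix.det_apply', Matrix.det_apply', Finset.sum_mul_sum, Finset.mul_sum]
    refine Finset.sum_congr rfl fun a _ => ?_
    rw [Finset.mul_sum]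
    rfl
  rw [Finset.sum_congr rfl fun s _ => h1 s, Finset.sum_comm]
  have h2 : ∀ a : Perm (Fin n₁), ∑ s : Perm (Fin n₁ ⊕ Fin n₂), ∑ b : Perm (Fin n₂),
      ((Perm.sign s : ℤ) : K) *
        ((((Perm.sign a : ℤ) : K) * ∏ i, M (s (Sum.inl (a i))) (Sum.inl i)) *
        (((Perm.sign b : ℤ) : K) * ∏ i, M (s (Sum.inr (b i))) (Sum.inr i))) =
      (n₂.factorial : K) * M.det := by
    intro a
    rw [Finset.sum_comm, ← Finset.sum_congr rfl fun b _ => key a b, Finset.sum_const,
      Finset.card_univ, Fintype.card_perm, Fintype.card_fin, nsmul_eq_mul]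
  rw [Finset.sum_congr rfl fun a _ => h2 a, Finset.sum_const, Finset.card_univ,
    Fintype.card_perm, Fintype.card_fin, nsmul_eq_mul]
  push_cast
  ring

/-- the same for two blocks of columns of a matrix with indices in `Fin (n₁ + n₂)` -/
theorem laplace' {K : Type} [Field K] {n₁ n₂ : ℕ}
    (M : Matrix (Fin (n₁ + n₂)) (Fin (n₁ + n₂)) K) :
    ((n₁.factorial * n₂.factorial : ℕ) : K) * M.det =
      ∑ s : Perm (Fin n₁ ⊕ Fin n₂), ((Perm.sign s : ℤ) : K) *
        ((Matrix.of fun i j => M (finSumFinEquiv (s (Sum.inl i))) (Fin.castAdd n₂ j) :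
          Matrix (Fin n₁) (Fin n₁) K).det *
        (Matrix.of fun i j => M (finSumFinEquiv (s (Sum.inr i))) (Fin.natAdd n₁ j) :
          Matrix (Fin n₂) (Fin n₂) K).det) := by
  have h := laplace (M.submatrix finSumFinEquiv finSumFinEquiv)
  rw [Matrix.det_submatrix_equiv_self] at h
  exact h

end Pool.Agent.N249.GQ
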