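import Pool.Agent.N162.GQ.Stm
import Pool.Agent.N123.SX.PULL
import Pool.Agent.N249.GQ.Lap

/-!
Project GQ (helper162), part WDG (helper249): the exterior product of logarithmic canonical forms of
two varieties.
-/

set_option autoImplicit false
set_option linter.overlappingInstances false
set_option linter.unusedSectionVars false
set_option linter.unusedVariables false
set_option maxHeartbeats 4000000
set_option synthInstance.maxHeartbeats 400000

open Polynomial FF IntermediateField Module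

namespace Pool.Agent.N249.GQ

open Pool.Agent.W603.LV (Ge vo)
open Pool.Agent.N145.SX (HX S_PULL)
open Pool.Agent.N162.GQ (Bd2 StWDG)
open Pool.Agent.W602.GT (Divisorial RegAt DerReg DerLog LogAt)
open Pool.Agent.Y184.NT (trForm)
open Pool.Agent.R882.LT (SecAt)

theorem expand2 {K E₁ E₂ : Type} [Field K] [Field E₁] [Field E₂] [Algebra ℂ K] [Algebra E₁ K]
    [Algebra E₂ K] {n₁ n₂ : ℕ} (Q : Place ℂ K) (z₁ : Fin n₁ → E₁) (z₂ : Fin n₂ → E₂) (f₁ : E₁)
    (f₂ : E₂) (D : Fin (n₁ + n₂) → Derivation ℂ K K)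
    (h1 : ∀ r : Fin n₁ → Fin (n₁ + n₂), Ge Q 0
      ((Matrix.of fun i j => D (r i) (algebraMap E₁ K (z₁ j)) : Matrix (Fin n₁) (Fin n₁) K).det *
        algebraMap E₁ K f₁))
    (h2 : ∀ r : Fin n₂ → Fin (n₁ + n₂), Ge Q 0
      ((Matrix.of fun i j => D (r i) (algebraMap E₂ K (z₂ j)) : Matrix (Fin n₂) (Fin n₂) K).det *
        algebraMap E₂ K f₂)) :
    Ge Q 0 (trForm (Fin.append (fun i => algebraMap E₁ K (z₁ i)) fun i => algebraMap E₂ K (z₂ i))
      (algebraMap E₁ K f₁ * algebraMap E₂ K f₂) D) := by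
  unfold trForm
  have hL := laplace' (Matrix.of fun i j => D i (Fin.append (fun i => algebraMap E₁ K (z₁ i))
    (fun i => algebraMap E₂ K (z₂ i)) j) : Matrix (Fin (n₁ + n₂)) (Fin (n₁ + n₂)) K)
  simp only [Matrix.of_apply, Fin.append_left, Fin.append_right] at hL
  have hcC : ((n₁.factorial * n₂.factorial : ℕ) : ℂ) ≠ 0 := by
    exact_mod_cast Nat.mul_ne_zero (Nat.factorial_ne_zero _) (Nat.factorial_ne_zero _)
  have hc : ((n₁.factorial * n₂.factorial : ℕ) : K) ≠ 0 := by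
    rw [← map_natCast (algebraMap ℂ K)]
    exact (_root_.map_ne_zero _).2 hcC
  have h3 : Ge Q 0 (((n₁.factorial * n₂.factorial : ℕ) : K) *
      ((Matrix.of fun i j => D i (Fin.append (fun i => algebraMap E₁ K (z₁ i))
        (fun i => algebraMap E₂ K (z₂ i)) j) : Matrix (Fin (n₁ + n₂)) (Fin (n₁ + n₂)) K).det *
        (algebraMap E₁ K f₁ * algebraMap E₂ K f₂))) := by
    rw [← mul_assoc, hL, Finset.sum_mul]
    refine Ge.sum _ _ fun s _ => ?_
    have h4 := (Ge.intCast (P := Q) (Equiv.Perm.sign s : ℤ)).mul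
      ((h1 fun i => finSumFinEquiv (s (Sum.inl i))).mul
        (h2 fun i => finSumFinEquiv (s (Sum.inr i))))
    refine Ge.mono (N := 0 + (0 + 0)) (by norm_num) ?_
    have e : ∀ a b c d e : K, a * (b * c) * (d * e) = a * (b * d * (c * e)) := by
      intro a b c d e
      ring
    rw [e]
    exact h4
  have h5 := (Ge.const (P := Q) ((n₁.factorial * n₂.factorial : ℕ) : ℂ)⁻¹).mul h3
  rw [map_inv₀, map_natCast, ← mul_assoc, inv_mul_cancel₀ hc, one_mul] at h5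
  exact h5.mono (by norm_num)

theorem wdg_ : StWDG := by
  intro K E₁ E₂ _ _ _ _ _ _ _ _ _ _ _ _ n₁ n₂ ht₁ ht₂ htK B₁ B₂ z₁ z₂ hz₁ hz₂ f₁ hf₁ f₂ hf₂ Q hQ
  refine ⟨fun D hD => ?_, fun hQB D hD => ?_⟩
  · exact expand2 Q z₁ z₂ f₁ f₂ D
      (fun r => Pool.Agent.N123.SX.PULL E₁ K n₁ (n₁ + n₂) ht₁ htK z₁ hz₁ B₁ f₁ hf₁ Q hQ
        (fun i => D (r i)) (Or.inl fun i => hD _))
      (fun r => Pool.Agent.N123.SX.PULL E₂ K n₂ (n₁ + n₂) ht₂ htK z₂ hz₂ B₂ f₂ hf₂ Q hQ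
        (fun i => D (r i)) (Or.inl fun i => hD _))
  · exact expand2 Q z₁ z₂ f₁ f₂ D
      (fun r => Pool.Agent.N123.SX.PULL E₁ K n₁ (n₁ + n₂) ht₁ htK z₁ hz₁ B₁ f₁ hf₁ Q hQ
        (fun i => D (r i)) (Or.inr ⟨fun h => hQB (Or.inl h), fun i => hD _⟩))
      (fun r => Pool.Agent.N123.SX.PULL E₂ K n₂ (n₁ + n₂) ht₂ htK z₂ hz₂ B₂ f₂ hf₂ Q hQ
        (fun i => D (r i)) (Or.inr ⟨fun h => hQB (Or.inr h), fun i => hD _⟩))

end Pool.Agent.N249.GQ
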